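import Mathlib

set_option autoImplicit false

namespace Pool.Agent.Results.MP_9e6edb_gt.NotLC

open Set Filter Topology

/-- A pretty base: a base of clopen sets with the nesting property (countable versus arbitrary). -/
def IsPrettyBase {X : Type} [TopologicalSpace X] (𝓑 : Set (Set X)) : Prop :=
  TopologicalSpace.IsTopologicalBasis 𝓑 ∧ (∀ b ∈ 𝓑, IsClopen b) ∧
    ∀ C D : Set (Set X), C ⊆ 𝓑 → D ⊆ 𝓑 → C.Countable → (∀ c ∈ C, ∀ d ∈ D, Disjoint c d) →
      ∃ b ∈ 𝓑, (∀ c ∈ C, c ⊆ b) ∧ (∀ d ∈ D, Disjoint b d)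

/-- The base is cocompact: the space is compact in the cotopology generated by the complements
of the closures of the members of the base. -/
def IsCocompact {X : Type} [TopologicalSpace X] (𝓑 : Set (Set X)) : Prop :=
  @IsCompact X (TopologicalSpace.generateFrom {U : Set X | ∃ b ∈ 𝓑, U = (closure b)ᶜ}) Set.univ

/-- Basically disconnected: Hausdorff, zero-dimensional, and the closure of a countable union of
clopen sets is clopen. -/
def BasicallyDisconnected (X : Type) [TopologicalSpace X] : Prop :=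
  T2Space X ∧ TopologicalSpace.IsTopologicalBasis {U : Set X | IsClopen U} ∧
    ∀ C : Set (Set X), C.Countable → (∀ c ∈ C, IsClopen c) → IsClopen (closure (⋃₀ C))

lemma exists_p : ∃ p : Ultrafilter ℝ, ∀ A ∈ p, ¬ Set.Countable A := by
  have : (cocountable : Filter ℝ).NeBot := by
    rw [neBot_iff, Ne, ← empty_mem_iff_bot, mem_cocountable, compl_empty]
    exact Cardinal.not_countable_real
  obtain ⟨p, hp⟩ := Ultrafilter.exists_le (cocountable : Filter ℝ)
  refine ⟨p, fun A hA hc => ?_⟩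
  have h4 : Aᶜ ∈ p := hp (mem_cocountable.mpr (by rwa [compl_compl]))
  exact Ultrafilter.compl_mem_iff_notMem.mp h4 hA

noncomputable def p : Ultrafilter ℝ := exists_p.choose

lemma p_spec : ∀ A ∈ p, ¬ Set.Countable A := exists_p.choose_spec

/-- Ultrafilters on the reals containing a countable set, together with one uniform one. -/
abbrev X : Type := {u : Ultrafilter ℝ // (∃ C : Set ℝ, C.Countable ∧ C ∈ u) ∨ u = p}

def br (A : Set ℝ) : Set X := {u | A ∈ u.1}

def BB : Set (Set X) := {b | ∃ A : Set ℝ, (A.Countable ∨ A ∈ p) ∧ b = br A}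

def pt (s : ℝ) : X := ⟨pure s, Or.inl ⟨{s}, countable_singleton _, by simp⟩⟩

noncomputable def pp : X := ⟨p, Or.inr rfl⟩

lemma pt_mem (s : ℝ) (A : Set ℝ) : pt s ∈ br A ↔ s ∈ A := by
  simp [pt, br]

lemma br_clopen (A : Set ℝ) : IsClopen (br A) :=
  ⟨(ultrafilter_isClosed_basic A).preimage continuous_subtype_val,
    (ultrafilter_isOpen_basic A).preimage continuous_subtype_val⟩

lemma exists_br {O : Set X} (hO : IsOpen O) {u : X} (hu : u ∈ O) :
    ∃ A : Set ℝ, A ∈ u.1 ∧ br A ⊆ O := by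
  obtain ⟨O', hO', rfl⟩ := isOpen_induced_iff.mp hO
  obtain ⟨_, ⟨A, rfl⟩, h1, h2⟩ := ultrafilterBasis_is_basis.exists_subset_of_mem_open hu hO'
  exact ⟨A, h1, fun v hv => h2 hv⟩

lemma basis : TopologicalSpace.IsTopologicalBasis BB := by
  apply TopologicalSpace.isTopologicalBasis_of_isOpen_of_nhds
  · rintro _ ⟨A, -, rfl⟩
    exact (br_clopen A).isOpen
  · intro u O hu hO
    obtain ⟨A, h1, h2⟩ := exists_br hO hu
    rcases u.2 with ⟨C, hC, h3⟩ | h3
    · exact ⟨br (A ∩ C), ⟨_, Or.inl (hC.mono inter_subset_right), rfl⟩, inter_mem h1 h3,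
        fun v hv => h2 (mem_of_superset hv inter_subset_left)⟩
    · exact ⟨br A, ⟨A, Or.inr (h3 ▸ h1), rfl⟩, h1, h2⟩

lemma pretty (C D : Set (Set X)) (hC : C ⊆ BB) (hD : D ⊆ BB) (hc : C.Countable)
    (h : ∀ c ∈ C, ∀ d ∈ D, Disjoint c d) :
    ∃ b ∈ BB, (∀ c ∈ C, c ⊆ b) ∧ (∀ d ∈ D, Disjoint b d) := by
  have hC' : ∀ c ∈ C, ∃ A : Set ℝ, (A.Countable ∨ A ∈ p) ∧ c = br A := hC
  choose! A hA1 hA2 using hC'
  refine ⟨br (⋃ c ∈ C, A c), ⟨_, ?_, rfl⟩, fun c hc' => ?_, fun d hd => ?_⟩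
  · by_cases h1 : ∀ c ∈ C, (A c).Countable
    · exact Or.inl (hc.biUnion h1)
    · push Not at h1
      obtain ⟨c, hc', h2⟩ := h1
      exact Or.inr (mem_of_superset ((hA1 c hc').resolve_left h2)
        (subset_biUnion_of_mem (u := A) hc'))
  · intro u hu
    rw [hA2 c hc'] at hu
    exact mem_of_superset hu (subset_biUnion_of_mem (u := A) hc')
  · obtain ⟨A', -, rfl⟩ := hD hd
    rw [Set.disjoint_left]
    intro u h1 h2
    obtain ⟨s, hs1, hs2⟩ := Ultrafilter.nonempty_of_mem (inter_mem h1 h2)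
    obtain ⟨c, hc', hs⟩ := mem_iUnion₂.mp hs1
    exact Set.disjoint_left.mp (h c hc' _ hd) (by rw [hA2 c hc', pt_mem]; exact hs)
      ((pt_mem s A').mpr hs2)

lemma cocompact : IsCocompact BB := by
  have key : ∀ F : Ultrafilter X, ∃ x : X, ∀ A : Set ℝ, (A.Countable ∨ A ∈ p) →
      x ∉ br A → (br A)ᶜ ∈ F := by
    intro F
    let w : Ultrafilter ℝ := F.bind Subtype.val
    have hw : ∀ A, A ∈ w ↔ br A ∈ F := fun A => by
      simp only [w, Ultrafilter.bind, br, ← Ultrafilter.mem_coe, Ultrafilter.ofComplNotMemIff,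
        Filter.mem_bind']
    by_cases h : ∃ C : Set ℝ, C.Countable ∧ C ∈ w
    · exact ⟨⟨w, Or.inl h⟩, fun A _ hA => Ultrafilter.compl_mem_iff_notMem.mpr fun h' =>
        hA ((hw A).mpr h')⟩
    · refine ⟨pp, fun A hA hx => Ultrafilter.compl_mem_iff_notMem.mpr fun h' => h ?_⟩
      exact ⟨A, hA.resolve_right hx, (hw A).mpr h'⟩
  have hcl : ∀ A, closure (br A) = br A := fun A => (br_clopen A).isClosed.closure_eq
  unfold IsCocompact
  rw [@isCompact_iff_ultrafilter_le_nhds X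
    (TopologicalSpace.generateFrom {U : Set X | ∃ b ∈ BB, U = (closure b)ᶜ})]
  intro F _
  obtain ⟨x, hx⟩ := key F
  refine ⟨x, mem_univ _, ?_⟩
  rw [TopologicalSpace.nhds_generateFrom]
  refine le_iInf₂ ?_
  rintro _ ⟨h1, _, ⟨A, hA, rfl⟩, rfl⟩
  rw [hcl] at h1 ⊢
  exact le_principal_iff.mpr (hx A hA h1)

lemma closure_open {U : Set X} (hU : IsOpen U) : closure U = br {s | pt s ∈ U} := by
  apply Subset.antisymm
  · refine closure_minimal (fun u hu => ?_) (br_clopen _).isClosed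
    obtain ⟨B, h1, h2⟩ := exists_br hU hu
    exact mem_of_superset h1 fun s hs => h2 ((pt_mem s B).mpr hs)
  · intro u hu
    rw [mem_closure_iff]
    intro O hO huO
    obtain ⟨B, h1, h2⟩ := exists_br hO huO
    obtain ⟨s, hs1, hs2⟩ := Ultrafilter.nonempty_of_mem (inter_mem h1 hu)
    exact ⟨pt s, h2 ((pt_mem s B).mpr hs1), hs2⟩

lemma bd : BasicallyDisconnected X := by
  refine ⟨inferInstance, ?_, fun C _ hC => ?_⟩
  · apply TopologicalSpace.isTopologicalBasis_of_isOpen_of_nhds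
    · exact fun U hU => hU.isOpen
    · intro u O hu hO
      obtain ⟨A, h1, h2⟩ := exists_br hO hu
      exact ⟨br A, br_clopen A, h1, h2⟩
  · rw [closure_open (isOpen_sUnion fun c hc => (hC c hc).isOpen)]
    exact br_clopen _

lemma split {A : Set ℝ} (hA : ¬ A.Countable) :
    ∃ B ⊆ A, ¬ B.Countable ∧ B ∉ p := by
  have hinf : Infinite A := by
    rw [Set.infinite_coe_iff]
    exact fun h => hA h.countable
  obtain ⟨e⟩ : Nonempty (A ⊕ A ≃ A) := by
    rw [← Cardinal.eq]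
    simp [Cardinal.add_eq_self (Cardinal.aleph0_le_mk A)]
  have hunc : ∀ f : A → A ⊕ A, Function.Injective f →
      ¬ (range fun a => ((e (f a) : A) : ℝ)).Countable := by
    intro f hf hc
    have hi : Function.Injective fun a => ((e (f a) : A) : ℝ) :=
      Subtype.val_injective.comp (e.injective.comp hf)
    rw [← image_univ] at hc
    have := countable_of_injective_of_countable_image hi.injOn hc
    exact hA (Set.countable_coe_iff.mp (Set.countable_univ_iff.mp this))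
  have hsub : ∀ f : A → A ⊕ A, (range fun a => ((e (f a) : A) : ℝ)) ⊆ A := by
    rintro f _ ⟨a, rfl⟩
    exact (e (f a)).2
  by_cases h : (range fun a => ((e (Sum.inl a) : A) : ℝ)) ∈ p
  · refine ⟨_, hsub Sum.inr, hunc _ Sum.inr_injective, fun h' => ?_⟩
    obtain ⟨s, ⟨a, ha⟩, ⟨b, hb⟩⟩ := Ultrafilter.nonempty_of_mem (inter_mem h h')
    have : (Sum.inl a : A ⊕ A) = Sum.inr b :=
      e.injective (Subtype.val_injective (ha.trans hb.symm))
    cases this
  · exact ⟨_, hsub Sum.inl, hunc _ Sum.inl_injective, h⟩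

lemma not_lc : ¬ ∃ K ∈ 𝓝 pp, IsCompact K := by
  rintro ⟨K, hK, hc⟩
  obtain ⟨O, hOK, hO, hp⟩ := mem_nhds_iff.mp hK
  obtain ⟨A, h1, h2⟩ := exists_br hO hp
  obtain ⟨B, hBA, hB, hBp⟩ := split (p_spec A h1)
  have hc' : IsCompact (br B) := hc.of_isClosed_subset (br_clopen B).isClosed
    fun u hu => hOK (h2 (mem_of_superset hu hBA))
  obtain ⟨t, ht⟩ := hc'.elim_finite_subcover (fun C : {C : Set ℝ // C.Countable} => br C.1)
    (fun C => (br_clopen _).isOpen) (by
      intro u hu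
      rcases u.2 with ⟨C, hC, h3⟩ | h3
      · exact mem_iUnion.mpr ⟨⟨C, hC⟩, h3⟩
      · exact absurd (h3 ▸ hu : B ∈ p) hBp)
  refine hB ((t.finite_toSet.countable.biUnion fun C _ => C.2).mono fun s hs => ?_)
  obtain ⟨C, hC, h3⟩ := mem_iUnion₂.mp (ht ((pt_mem s B).mpr hs))
  exact mem_iUnion₂.mpr ⟨C, hC, (pt_mem s _).mp h3⟩

/-- A basically disconnected space with a cocompact pretty base and a point without a compact
neighbourhood. -/
theorem result : ∃ (X : Type) (_ : TopologicalSpace X), BasicallyDisconnected X ∧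
    (∃ 𝓑 : Set (Set X), IsPrettyBase 𝓑 ∧ IsCocompact 𝓑) ∧
    ∃ x : X, ¬ ∃ K ∈ 𝓝 x, IsCompact K :=
  ⟨X, inferInstance, bd, ⟨BB, ⟨basis, by rintro _ ⟨A, -, rfl⟩; exact br_clopen A, pretty⟩,
    cocompact⟩, pp, not_lc⟩

end Pool.Agent.Results.MP_9e6edb_gt.NotLC
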